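import Mathlib

/-!
# The equation `2y³ + xy + x⁴ + 1 = 0` has no integer solution

On the line `y = 1/2 - x` the left side equals `(x² - x + 1/2)² + 1`.  Hence for a solution
`(1 - 2x - 2y) * G = (2x² - 2x + 1)² + 4` with `G = 4y² + 2y(1 - 2x) + (1 - 2x)² + 2x > 0`.
Parity forces `x` odd and `y` even, so the positive integer `1 - 2x - 2y` is `3` modulo `4`
and has a prime factor `p ≡ 3 (mod 4)`, which cannot divide `A² + 2²`.
-/

namespace Pool.Agent.Results.MP_c028a6_nt.NoSolution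

/-- A natural number that is `3` modulo `4` has a prime factor that is `3` modulo `4`. -/
lemma exists_prime_three (n : ℕ) (hn : n % 4 = 3) : ∃ p : ℕ, p.Prime ∧ p ∣ n ∧ p % 4 = 3 := by
  induction n using Nat.strong_induction_on with
  | _ n ih =>
    have h1 : n ≠ 1 := by omega
    obtain ⟨p, hp, m, hm⟩ := Nat.exists_prime_and_dvd h1
    by_cases h3 : p % 4 = 3
    · exact ⟨p, hp, ⟨m, hm⟩, h3⟩
    · have hm3 : m % 4 = 3 := by
        have h := Nat.mul_mod p m 4
        rw [← hm, hn] at h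
        have hp4 : p % 4 < 4 := Nat.mod_lt _ (by norm_num)
        have hm4 : m % 4 < 4 := Nat.mod_lt _ (by norm_num)
        generalize p % 4 = a at *
        generalize m % 4 = b at *
        interval_cases a <;> interval_cases b <;> omega
      have hlt : m < n := by
        have h2 := hp.two_le
        have hm0 : 0 < m := by omega
        nlinarith
      obtain ⟨q, hq, hqm, hq3⟩ := ih m hlt hm3
      exact ⟨q, hq, hm ▸ Dvd.dvd.mul_left hqm p, hq3⟩

theorem result : ∀ x y : ℤ, 2 * y ^ 3 + x * y + x ^ 4 + 1 ≠ 0 := by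
  intro x y h
  have key : (1 - 2 * x - 2 * y) * (4 * y ^ 2 + 2 * y * (1 - 2 * x) + (1 - 2 * x) ^ 2 + 2 * x)
      = (2 * x ^ 2 - 2 * x + 1) ^ 2 + 2 ^ 2 := by
    linear_combination (-4 : ℤ) * h
  have hG : 0 < 4 * y ^ 2 + 2 * y * (1 - 2 * x) + (1 - 2 * x) ^ 2 + 2 * x := by
    nlinarith [sq_nonneg (4 * y + (1 - 2 * x)), sq_nonneg (6 * x - 1)]
  have hpos : 0 < 1 - 2 * x - 2 * y := by
    by_contra hle
    push Not at hle
    nlinarith [sq_nonneg (2 * x ^ 2 - 2 * x + 1), mul_nonneg (neg_nonneg.mpr hle) hG.le]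
  have hx : x % 2 = 1 := by
    rcases Int.emod_two_eq_zero_or_one x with hx | hx
    · exfalso
      obtain ⟨k, rfl⟩ : ∃ k, x = 2 * k := ⟨x / 2, by omega⟩
      have : 2 * (y ^ 3 + k * y + 8 * k ^ 4) + 1 = 0 := by linear_combination h
      omega
    · exact hx
  have hy : y % 2 = 0 := by
    rcases Int.emod_two_eq_zero_or_one y with hy | hy
    · exact hy
    · exfalso
      obtain ⟨k, rfl⟩ : ∃ k, x = 2 * k + 1 := ⟨x / 2, by omega⟩
      obtain ⟨l, rfl⟩ : ∃ l, y = 2 * l + 1 := ⟨y / 2, by omega⟩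
      have : 2 * ((2 * l + 1) ^ 3 + 2 * k * l + k + l + 8 * k ^ 4 + 16 * k ^ 3 + 12 * k ^ 2
          + 4 * k + 1) + 1 = 0 := by linear_combination h
      omega
  obtain ⟨n, hn⟩ : ∃ n : ℕ, (n : ℤ) = 1 - 2 * x - 2 * y := ⟨_, Int.toNat_of_nonneg hpos.le⟩
  have hn3 : n % 4 = 3 := by omega
  obtain ⟨p, hp, hpn, hp3⟩ := exists_prime_three n hn3
  have := Fact.mk hp
  have hdvd : (p : ℤ) ∣ (2 * x ^ 2 - 2 * x + 1) ^ 2 + 2 ^ 2 := by
    rw [← key, ← hn]
    exact Dvd.dvd.mul_right (Int.natCast_dvd_natCast.mpr hpn) _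
  have h0 : (((2 * x ^ 2 - 2 * x + 1 : ℤ) : ZMod p)) ^ 2 = -(2 : ZMod p) ^ 2 := by
    have := (ZMod.intCast_zmod_eq_zero_iff_dvd _ p).mpr hdvd
    push_cast at this ⊢
    linear_combination this
  have h2 : (2 : ZMod p) ≠ 0 := by
    intro h2
    have : ((2 : ℕ) : ZMod p) = 0 := by exact_mod_cast h2
    have hd := (ZMod.natCast_eq_zero_iff 2 p).mp this
    have := Nat.le_of_dvd (by norm_num) hd
    omega
  exact ZMod.mod_four_ne_three_of_sq_eq_neg_sq' h2 h0 hp3

end Pool.Agent.Results.MP_c028a6_nt.NoSolution
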