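import Mathlib

/-!
# `2y³ + xy + x⁴ + 1 = 0` has no `2`-integral point over number fields of odd degree

Let `K` be a number field of odd degree whose primes above `2` have residue fields with at most
four elements, and let `x, y ∈ K` have odd denominators.  For a solution,
`(1 - 2x - 2y) * G = (2x² - 2x + 1)² + 4` with `G` positive at the real places.  The element
`F = d² (1 - 2x - 2y)` of the ring of integers then has

* positive norm, as it is positive at every real place;
* ideal norm `1` modulo `4`: at a prime not above `2` either its order is even or `-1` is a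
  square in the residue field, and it is prime to `2`;
* norm `3` modulo `4`: `F = 1 - 2W` with `W ≡ 1 + X + X²` at every prime above `2`, so that
  the trace of `W` has the parity of the degree.
-/

open NumberField IsDedekindDomain WithZero
open scoped WithZero

namespace Pool.Agent.Results.MP_c028a6_nt.OddDegree

/-- A nonzero element that is positive in every real embedding has positive norm. -/
lemma norm_pos {K : Type*} [Field K] [NumberField K] (f : K) (hf : f ≠ 0)
    (hpos : ∀ φ : K →+* ℝ, 0 < φ f) : 0 < Algebra.norm ℚ f := by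
  classical
  have hne : ∀ φ : K →+* ℂ, φ f ≠ 0 := fun φ => (map_ne_zero φ).mpr hf
  have hn : ∀ φ : K →+* ℂ, ((‖φ f‖ : ℝ) : ℂ) ≠ 0 := fun φ => by
    exact_mod_cast (norm_ne_zero_iff.mpr (hne φ))
  have h1 : ∏ φ : K →+* ℂ, φ f / ((‖φ f‖ : ℝ) : ℂ) = 1 := by
    refine Finset.prod_involution (fun φ _ => ComplexEmbedding.conjugate φ) ?_ ?_ ?_ ?_
    · intro φ _
      rw [ComplexEmbedding.conjugate_coe_eq, Complex.norm_conj, div_mul_div_comm,
        Complex.mul_conj, Complex.normSq_eq_norm_sq, div_eq_one_iff_eq (mul_ne_zero (hn φ) (hn φ))]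
      push_cast
      ring
    · intro φ _ hφ hc
      apply hφ
      have hr : ComplexEmbedding.IsReal φ := ComplexEmbedding.isReal_iff.mpr hc
      have h := hr.coe_embedding_apply f
      have hp := hpos hr.embedding
      rw [div_eq_one_iff_eq (hn φ), ← h, Complex.norm_real, Real.norm_eq_abs, abs_of_pos hp]
    · intro φ _
      exact Finset.mem_univ _
    · intro φ _
      exact ComplexEmbedding.involutive_conjugate K φ
  have h2 : ((Algebra.norm ℚ f : ℚ) : ℂ) = ∏ φ : K →+* ℂ, φ f := by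
    have h := Algebra.norm_eq_prod_embeddings ℚ ℂ f
    rw [eq_ratCast] at h
    rw [h, ← Fintype.prod_equiv (RingHom.equivRatAlgHom K ℂ) (fun φ => φ f)
      (fun φ => φ f) fun _ => by simp [RingHom.equivRatAlgHom_apply]]
  rw [Finset.prod_div_distrib, div_eq_one_iff_eq (Finset.prod_ne_zero_iff.mpr fun φ _ => hn φ),
    ← h2] at h1
  have h3 : ((Algebra.norm ℚ f : ℚ) : ℝ) = ∏ φ : K →+* ℂ, ‖φ f‖ := by
    exact_mod_cast h1
  have h4 : (0 : ℝ) < ∏ φ : K →+* ℂ, ‖φ f‖ :=
    Finset.prod_pos fun φ _ => norm_pos_iff.mpr (hne φ)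
  rw [← h3] at h4
  exact_mod_cast h4

/-- On a real point of the curve, `1 - 2x - 2y` is positive. -/
lemma real_pos (x y : ℝ) (h : 2 * y ^ 3 + x * y + x ^ 4 + 1 = 0) : 0 < 1 - 2 * x - 2 * y := by
  have key : (1 - 2 * x - 2 * y) * (4 * y ^ 2 + 2 * y * (1 - 2 * x) + (1 - 2 * x) ^ 2 + 2 * x)
      = (2 * x ^ 2 - 2 * x + 1) ^ 2 + 2 ^ 2 := by
    linear_combination (-4 : ℝ) * h
  have hG : 0 < 4 * y ^ 2 + 2 * y * (1 - 2 * x) + (1 - 2 * x) ^ 2 + 2 * x := by
    nlinarith [sq_nonneg (4 * y + (1 - 2 * x)), sq_nonneg (6 * x - 1)]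
  by_contra hle
  push Not at hle
  nlinarith [sq_nonneg (2 * x ^ 2 - 2 * x + 1), mul_nonneg (neg_nonneg.mpr hle) hG.le]

/-- At a discrete valuation with `v 2 = 1`, either `1 - 2x - 2y` has even order or `-1` is a
square in the residue field. -/
lemma val_cases {K : Type*} [Field K] (v : Valuation K ℤᵐ⁰) (h2 : v 2 = 1) (x y : K)
    (h : 2 * y ^ 3 + x * y + x ^ 4 + 1 = 0) :
    (∃ n : ℤ, v (1 - 2 * x - 2 * y) = exp (2 * n)) ∨ ∃ t : K, v t ≤ 1 ∧ v (t ^ 2 + 1) < 1 := by
  have h20 : (2 : K) ≠ 0 := by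
    intro h0
    rw [h0, map_zero] at h2
    exact zero_ne_one h2
  rcases le_or_gt (v y) 1 with hy | hy
  · have hx : v x ≤ 1 := by
      by_contra hx
      push Not at hx
      have hx0 : 0 < v x := lt_trans zero_lt_one hx
      have h4 : v x < v x ^ 4 := by
        calc v x = v x ^ 1 := (pow_one _).symm
          _ < v x ^ 4 := pow_lt_pow_right₀ hx (by norm_num)
      have e : x ^ 4 = -(2 * y ^ 3 + x * y + 1) := by linear_combination h
      have : v (x ^ 4) < v x ^ 4 := by
        rw [e, v.map_neg]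
        refine v.map_add_lt (v.map_add_lt ?_ ?_) ?_
        · rw [map_mul, h2, one_mul, map_pow]
          exact lt_of_le_of_lt (pow_le_one₀ zero_le hy) (lt_trans hx h4)
        · rw [map_mul]
          exact lt_of_le_of_lt (mul_le_of_le_one_right zero_le hy) h4
        · rw [map_one]
          exact lt_trans hx h4
      rw [map_pow] at this
      exact lt_irrefl _ this
    have i2 : v 2 ≤ 1 := h2.le
    have hint : ∀ a b : K, v a ≤ 1 → v b ≤ 1 → v (a * b) ≤ 1 := fun a b ha hb => by
      rw [map_mul]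
      exact mul_le_one' ha hb
    have i1 : v 1 ≤ 1 := (map_one v).le
    have iu : v (1 - 2 * x) ≤ 1 := v.map_sub_le i1 (hint _ _ i2 hx)
    have hf : v (1 - 2 * x - 2 * y) ≤ 1 := v.map_sub_le iu (hint _ _ i2 hy)
    rcases hf.eq_or_lt with hf | hf
    · left
      exact ⟨0, by rw [hf]; simp⟩
    · right
      have hG : v ((2 * y) * (2 * y) + 2 * y * (1 - 2 * x) + (1 - 2 * x) * (1 - 2 * x) + 2 * x)
          ≤ 1 :=
        v.map_add_le (v.map_add_le (v.map_add_le (hint _ _ (hint _ _ i2 hy) (hint _ _ i2 hy))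
          (hint _ _ (hint _ _ i2 hy) iu)) (hint _ _ iu iu)) (hint _ _ i2 hx)
      have hA : v (2 * (x * x) - 2 * x + 1) ≤ 1 :=
        v.map_add_le (v.map_sub_le (hint _ _ i2 (hint _ _ hx hx)) (hint _ _ i2 hx)) i1
      refine ⟨(2 * (x * x) - 2 * x + 1) / 2, ?_, ?_⟩
      · rw [map_div₀, h2, div_one]
        exact hA
      · have e : ((2 * (x * x) - 2 * x + 1) / 2) ^ 2 + 1 = (1 - 2 * x - 2 * y) *
            ((2 * y) * (2 * y) + 2 * y * (1 - 2 * x) + (1 - 2 * x) * (1 - 2 * x) + 2 * x)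
              / (2 * 2) := by
          field_simp
          linear_combination (4 : K) * h
        rw [e, map_div₀, map_mul v 2 2, h2, mul_one, div_one, map_mul]
        exact lt_of_le_of_lt (mul_le_of_le_one_right zero_le hG) hf
  · left
    have hy0 : 0 < v y := lt_trans zero_lt_one hy
    have hxy : v x < v y := by
      by_contra hxy
      push Not at hxy
      have hx : 1 < v x := lt_of_lt_of_le hy hxy
      have hx0 : 0 < v x := lt_trans zero_lt_one hx
      have e : x ^ 4 = -(2 * y ^ 3 + x * y + 1) := by linear_combination h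
      have : v (x ^ 4) < v x ^ 4 := by
        rw [e, v.map_neg]
        refine v.map_add_lt (v.map_add_lt ?_ ?_) ?_
        · rw [map_mul, h2, one_mul, map_pow]
          exact lt_of_le_of_lt (pow_le_pow_left₀ zero_le hxy 3)
            (pow_lt_pow_right₀ hx (by norm_num))
        · rw [map_mul]
          calc v x * v y ≤ v x * v x := mul_le_mul_right hxy _
            _ = v x ^ 2 := (sq _).symm
            _ < v x ^ 4 := pow_lt_pow_right₀ hx (by norm_num)
        · rw [map_one]
          exact one_lt_pow₀ hx (by norm_num)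
      rw [map_pow] at this
      exact lt_irrefl _ this
    have hf : v (1 - 2 * x - 2 * y) = v y := by
      have h2y : v (2 * y) = v y := by rw [map_mul, h2, one_mul]
      rw [← h2y]
      apply v.map_sub_eq_of_lt_right
      rw [h2y]
      refine v.map_sub_lt (by rw [map_one]; exact hy) ?_
      rw [map_mul, h2, one_mul]
      exact hxy
    have h43 : v x ^ 4 = v y ^ 3 := by
      have e : x ^ 4 = -(2 * y ^ 3 + (x * y + 1)) := by linear_combination h
      have h2y : v (2 * y ^ 3) = v y ^ 3 := by rw [map_mul, h2, one_mul, map_pow]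
      rw [← map_pow, e, v.map_neg, ← h2y]
      apply v.map_add_eq_of_lt_left
      rw [h2y]
      refine v.map_add_lt ?_ ?_
      · rw [map_mul]
        calc v x * v y ≤ v y * v y := mul_le_mul_left hxy.le _
          _ = v y ^ 2 := (sq _).symm
          _ < v y ^ 3 := pow_lt_pow_right₀ hy (by norm_num)
      · rw [map_one]
        exact one_lt_pow₀ hy (by norm_num)
    have hx0 : v x ≠ 0 := by
      intro h0
      rw [h0, zero_pow (by norm_num)] at h43
      exact (pow_pos hy0 3).ne h43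
    obtain ⟨a, ha⟩ : ∃ a : ℤ, v x = exp a := ⟨log (v x), (exp_log hx0).symm⟩
    obtain ⟨b, hb⟩ : ∃ b : ℤ, v y = exp b := ⟨log (v y), (exp_log hy0.ne').symm⟩
    rw [ha, hb, ← exp_nsmul, ← exp_nsmul, exp_inj] at h43
    refine ⟨2 * (b - a), ?_⟩
    rw [hf, hb, exp_inj]
    simp only [nsmul_eq_mul] at h43
    push_cast at h43
    omega

/-- If at every prime the element `F` has even order (zero order above `2`) or `-1` is a square
in the residue field, then the ideal norm of `F` is `1` modulo `4`. -/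
lemma absNorm_mod_four {K : Type*} [Field K] [NumberField K] (F : 𝓞 K) (hF : F ≠ 0)
    (h2 : ∀ P : HeightOneSpectrum (𝓞 K), (2 : 𝓞 K) ∈ P.asIdeal → F ∉ P.asIdeal)
    (hodd : ∀ P : HeightOneSpectrum (𝓞 K), (2 : 𝓞 K) ∉ P.asIdeal →
      (∃ n : ℤ, P.intValuation F = exp (2 * n)) ∨ ∃ a : 𝓞 K, a ^ 2 + 1 ∈ P.asIdeal) :
    Ideal.absNorm (Ideal.span {F}) % 4 = 1 := by
  classical
  have hI : (Ideal.span {F} : Ideal (𝓞 K)) ≠ 0 := by
    rw [Ne, Ideal.zero_eq_bot, Ideal.span_singleton_eq_bot]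
    exact hF
  rw [← Ideal.finprod_heightOneSpectrum_factorization hI]
  refine finprod_induction (fun I : Ideal (𝓞 K) => Ideal.absNorm I % 4 = 1) (by simp) ?_ ?_
  · intro I J hI hJ
    rw [map_mul, Nat.mul_mod, hI, hJ]
  · intro P
    have hv := P.intValuation_if_neg hF
    rw [HeightOneSpectrum.maxPowDividing, map_pow]
    generalize (Associates.mk P.asIdeal).count (Associates.mk (Ideal.span {F})).factors = c at hv
    by_cases hP : (2 : 𝓞 K) ∈ P.asIdeal
    · rw [HeightOneSpectrum.intValuation_eq_one_iff.mpr (h2 P hP), ← exp_zero, exp_inj] at hv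
      have : c = 0 := by omega
      rw [this, pow_zero, Nat.one_mod_eq_one]
      norm_num
    · have := P.isMaximal
      let _ : Field (𝓞 K ⧸ P.asIdeal) := Ideal.Quotient.field _
      have : Finite (𝓞 K ⧸ P.asIdeal) := Ring.HasFiniteQuotients.finiteQuotient P.ne_bot
      let _ : Fintype (𝓞 K ⧸ P.asIdeal) := Fintype.ofFinite _
      have hcard : Ideal.absNorm P.asIdeal = Fintype.card (𝓞 K ⧸ P.asIdeal) := by
        rw [Ideal.absNorm_apply, Submodule.cardQuot_apply, Nat.card_eq_fintype_card]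
      have hchar : ringChar (𝓞 K ⧸ P.asIdeal) ≠ 2 := by
        intro hc
        apply hP
        rw [← Ideal.Quotient.eq_zero_iff_mem, map_ofNat]
        have := ringChar.Nat.cast_ringChar (R := 𝓞 K ⧸ P.asIdeal)
        rw [hc] at this
        exact_mod_cast this
      have hq := FiniteField.odd_card_of_char_ne_two hchar
      rw [hcard]
      rcases hodd P hP with ⟨n, hn⟩ | ⟨a, ha⟩
      · rw [hn, exp_inj] at hv
        obtain ⟨k, rfl⟩ : ∃ k, c = 2 * k := ⟨c / 2, by omega⟩
        generalize Fintype.card (𝓞 K ⧸ P.asIdeal) = q at hq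
        have : q ^ 2 % 4 = 1 := by
          obtain ⟨m, rfl⟩ : ∃ m, q = 2 * m + 1 := ⟨q / 2, by omega⟩
          have : (2 * m + 1) ^ 2 = 4 * (m ^ 2 + m) + 1 := by ring
          omega
        rw [pow_mul, Nat.pow_mod, this, one_pow, Nat.one_mod_eq_one]
        norm_num
      · have hsq : IsSquare (-1 : 𝓞 K ⧸ P.asIdeal) := by
          refine ⟨Ideal.Quotient.mk _ a, ?_⟩
          have := Ideal.Quotient.eq_zero_iff_mem.mpr ha
          rw [map_add, map_pow, map_one] at this
          linear_combination -this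
        rw [FiniteField.isSquare_neg_one_iff] at hsq
        have : Fintype.card (𝓞 K ⧸ P.asIdeal) % 4 = 1 := by omega
        rw [Nat.pow_mod, this, one_pow, Nat.one_mod_eq_one]
        norm_num

/-- The norm of `1 - 2W` is `1 - 2 Tr W` modulo `4`. -/
lemma norm_one_sub_two {K : Type*} [Field K] [NumberField K] (W : 𝓞 K) :
    ∃ c : ℤ, Algebra.norm ℤ (1 - 2 * W) = 1 - 2 * Algebra.trace ℤ (𝓞 K) W + 4 * c := by
  classical
  let b := Module.Free.chooseBasis ℤ (𝓞 K)
  have e : Algebra.leftMulMatrix b (1 - 2 * W) = 1 + (-2 : ℤ) • Algebra.leftMulMatrix b W := by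
    have : (1 - 2 * W : 𝓞 K) = 1 + (-2 : ℤ) • W := by
      rw [zsmul_eq_mul]
      push_cast
      ring
    rw [this, map_add, map_one, map_zsmul]
  rw [Algebra.norm_eq_matrix_det b, e, Matrix.det_one_add_smul, Algebra.trace_eq_matrix_trace b]
  generalize Polynomial.eval (-2 : ℤ) _ = c
  exact ⟨c, by ring⟩

/-- If `W - (1 + X + X²)` lies in every prime above `2`, then `Tr W` has the parity of the
degree. -/
lemma trace_odd {K : Type*} [Field K] [NumberField K] (hK : Odd (Module.finrank ℚ K))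
    (W X : 𝓞 K) (h : ∀ P : Ideal (𝓞 K), P.IsPrime → (2 : 𝓞 K) ∈ P → W - (1 + X + X ^ 2) ∈ P) :
    Odd (Algebra.trace ℤ (𝓞 K) W) := by
  classical
  let b := Module.Free.chooseBasis ℤ (𝓞 K)
  let ψ : 𝓞 K →+* Matrix _ _ (ZMod 2) :=
    (Int.castRingHom (ZMod 2)).mapMatrix.comp (Algebra.leftMulMatrix b).toRingHom
  have hψ : ∀ u : 𝓞 K, ((Algebra.trace ℤ (𝓞 K) u : ℤ) : ZMod 2) = Matrix.trace (ψ u) := by
    intro u
    rw [Algebra.trace_eq_matrix_trace b]
    simp [ψ, Matrix.trace]
  have hrad : W - (1 + X + X ^ 2) ∈ (Ideal.span {(2 : 𝓞 K)}).radical := by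
    rw [Ideal.radical_eq_sInf, Submodule.mem_sInf]
    rintro P ⟨hP, hp⟩
    exact h P hp (hP (Ideal.mem_span_singleton_self _))
  obtain ⟨m, hm⟩ := hrad
  obtain ⟨c, hc⟩ := Ideal.mem_span_singleton'.mp hm
  have hnil : IsNilpotent (ψ (W - (1 + X + X ^ 2))) := by
    refine ⟨m, ?_⟩
    rw [← map_pow, ← hc, map_mul]
    have : ψ 2 = 0 := by
      rw [show (2 : 𝓞 K) = 1 + 1 by norm_num, map_add, map_one]
      ext i j
      simp [CharTwo.add_self_eq_zero]
    rw [this, mul_zero]
  have h0 := (Matrix.isNilpotent_trace_of_isNilpotent hnil).eq_zero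
  rw [map_sub, map_add, map_add, map_pow, map_one, Matrix.trace_sub, Matrix.trace_add,
    Matrix.trace_add, ZMod.trace_pow_card, ZMod.pow_card, Matrix.trace_one, add_assoc,
    CharTwo.add_self_eq_zero, add_zero, ← hψ, ← Module.finrank_eq_card_chooseBasisIndex,
    RingOfIntegers.rank, sub_eq_zero] at h0
  rw [← ZMod.intCast_eq_one_iff_odd, h0]
  exact (ZMod.natCast_eq_one_iff_odd).mpr hK

/-- In a residue field above `2` with at most four elements, `z ^ 4 - z` vanishes. -/
lemma pow_four_sub_mem {K : Type*} [Field K] [NumberField K] (P : Ideal (𝓞 K)) (hP : P.IsPrime)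
    (h2 : (2 : 𝓞 K) ∈ P) (h4 : Nat.card (𝓞 K ⧸ P) ≤ 4) (z : 𝓞 K ⧸ P) : z ^ 4 = z := by
  have hb : P ≠ ⊥ := by
    rintro rfl
    rw [Ideal.mem_bot] at h2
    exact two_ne_zero h2
  have := hP.isMaximal hb
  let _ : Field (𝓞 K ⧸ P) := Ideal.Quotient.field _
  have : Finite (𝓞 K ⧸ P) := Ring.HasFiniteQuotients.finiteQuotient hb
  let _ : Fintype (𝓞 K ⧸ P) := Fintype.ofFinite _
  have e2 : (2 : 𝓞 K ⧸ P) = 0 := by
    have := Ideal.Quotient.eq_zero_iff_mem.mpr h2
    rwa [map_ofNat] at this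
  rw [Nat.card_eq_fintype_card] at h4
  have h1 : 1 < Fintype.card (𝓞 K ⧸ P) := Fintype.one_lt_card
  have hz := FiniteField.pow_card z
  have hc := FiniteField.cast_card_eq_zero (𝓞 K ⧸ P)
  generalize Fintype.card (𝓞 K ⧸ P) = q at h4 h1 hz hc
  interval_cases q
  · calc z ^ 4 = (z ^ 2) ^ 2 := by ring
      _ = z := by rw [hz, hz]
  · exfalso
    push_cast at hc
    exact one_ne_zero (α := 𝓞 K ⧸ P) (by linear_combination hc - e2)
  · exact hz

theorem result (K : Type*) [Field K] [NumberField K] (hK : Odd (Module.finrank ℚ K))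
    (h2 : ∀ P : Ideal (𝓞 K), P.IsPrime → (2 : 𝓞 K) ∈ P → Nat.card (𝓞 K ⧸ P) ≤ 4)
    (d : ℤ) (hd : Odd d) (x y : K)
    (hx : IsIntegral ℤ ((d : K) * x)) (hy : IsIntegral ℤ ((d : K) * y)) :
    2 * y ^ 3 + x * y + x ^ 4 + 1 ≠ 0 := by
  intro h
  obtain ⟨k, hk⟩ := hd
  have hd0 : (d : K) ≠ 0 := Int.cast_ne_zero.mpr (by omega)
  obtain ⟨X, hX⟩ : ∃ X : 𝓞 K, algebraMap (𝓞 K) K X = (d : K) ^ 2 * x :=
    ⟨(d : 𝓞 K) * ⟨(d : K) * x, hx⟩, by
      rw [map_mul, map_intCast, sq, mul_assoc]
      rfl⟩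
  obtain ⟨Y, hY⟩ : ∃ Y : 𝓞 K, algebraMap (𝓞 K) K Y = (d : K) ^ 2 * y :=
    ⟨(d : 𝓞 K) * ⟨(d : K) * y, hy⟩, by
      rw [map_mul, map_intCast, sq, mul_assoc]
      rfl⟩
  have hdK : (d : K) = 2 * k + 1 := by
    rw [hk]
    push_cast
    ring
  obtain ⟨W, hW⟩ : ∃ W : 𝓞 K, W = X + Y - 2 * ((k : 𝓞 K) ^ 2 + k) := ⟨_, rfl⟩
  have hF : algebraMap (𝓞 K) K (1 - 2 * W) = (d : K) ^ 2 * (1 - 2 * x - 2 * y) := by
    rw [hW]
    simp only [map_sub, map_mul, map_add, map_pow, map_one, map_ofNat, map_intCast, hX, hY]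
    rw [hdK]
    ring
  have hodd : ∀ P : Ideal (𝓞 K), P.IsPrime → (2 : 𝓞 K) ∈ P → 1 - 2 * W ∉ P := by
    intro P hP h2P hm
    apply hP.ne_top
    rw [Ideal.eq_top_iff_one]
    have := P.add_mem hm (P.mul_mem_right W h2P)
    rwa [sub_add_cancel] at this
  have hf0 : (1 - 2 * x - 2 * y : K) ≠ 0 := by
    intro h0
    rw [h0, mul_zero, map_eq_zero_iff _ (IsFractionRing.injective (𝓞 K) K)] at hF
    have hN := congrArg (Algebra.norm ℤ) hF
    obtain ⟨c, hc⟩ := norm_one_sub_two W
    rw [hc, Algebra.norm_zero] at hN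
    omega
  have hFK : algebraMap (𝓞 K) K (1 - 2 * W) ≠ 0 := by
    rw [hF]
    exact mul_ne_zero (pow_ne_zero _ hd0) hf0
  have hF0 : (1 - 2 * W : 𝓞 K) ≠ 0 := fun h0 => hFK (by rw [h0, map_zero])
  have hpos : 0 < Algebra.norm ℤ (1 - 2 * W) := by
    have := norm_pos _ hFK (fun φ => by
      rw [hF]
      simp only [map_sub, map_mul, map_pow, map_one, map_ofNat, map_intCast]
      have hd1 : (d : ℝ) ≠ 0 := Int.cast_ne_zero.mpr (by omega)
      refine mul_pos (sq_pos_of_ne_zero hd1) (real_pos _ _ ?_)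
      have := congrArg φ h
      simpa only [map_add, map_mul, map_pow, map_one, map_ofNat, map_zero] using this)
    have e := Algebra.coe_norm_int (1 - 2 * W)
    rw [← RingOfIntegers.coe_eq_algebraMap, ← e] at this
    exact_mod_cast this
  have hmod : Ideal.absNorm (Ideal.span {1 - 2 * W}) % 4 = 1 := by
    refine absNorm_mod_four _ hF0 (fun P hP => hodd _ P.isPrime hP) fun P hP => ?_
    have hv2 : P.valuation K 2 = 1 := by
      have := (HeightOneSpectrum.valuation_eq_one_iff_notMem (K := K) P).mpr hP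
      rwa [map_ofNat] at this
    rcases val_cases (P.valuation K) hv2 x y h with ⟨n, hn⟩ | ⟨t, ht, ht1⟩
    · left
      have hvd : P.valuation K (d : K) ≠ 0 := (Valuation.ne_zero_iff _).mpr hd0
      obtain ⟨m, hm⟩ : ∃ m : ℤ, P.valuation K (d : K) = exp m := ⟨log _, (exp_log hvd).symm⟩
      refine ⟨m + n, ?_⟩
      rw [← HeightOneSpectrum.valuation_of_algebraMap (K := K)]
      change P.valuation K (algebraMap (𝓞 K) K (1 - 2 * W)) = _
      rw [hF, map_mul, map_pow, hn, hm, sq, ← exp_add, ← exp_add]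
      congr 1
      ring
    · right
      obtain ⟨a, ha⟩ := P.exists_valuation_sub_lt_of_integer ht 1
      rw [Units.val_one] at ha
      refine ⟨a, ?_⟩
      rw [← HeightOneSpectrum.valuation_lt_one_iff_mem (K := K)]
      change P.valuation K (algebraMap (𝓞 K) K (a ^ 2 + 1)) < 1
      have e : algebraMap (𝓞 K) K (a ^ 2 + 1)
          = (algebraMap (𝓞 K) K a - t) * (algebraMap (𝓞 K) K a + t) + (t ^ 2 + 1) := by
        rw [map_add, map_pow, map_one]
        ring
      rw [e]
      refine Valuation.map_add_lt _ ?_ ht1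
      rw [map_mul]
      refine lt_of_le_of_lt (mul_le_of_le_one_right zero_le ?_) ha
      exact Valuation.map_add_le _ (P.valuation_le_one a) ht
  have hE : X ^ 4 + ((d : 𝓞 K) ^ 2) ^ 2 * (X * Y) + 2 * (d : 𝓞 K) ^ 2 * Y ^ 3
      + ((d : 𝓞 K) ^ 2) ^ 4 = 0 := by
    apply IsFractionRing.injective (𝓞 K) K
    simp only [map_mul, map_add, map_pow, map_ofNat, map_intCast, hX, hY, map_zero]
    linear_combination (d : K) ^ 8 * h
  have htr : Odd (Algebra.trace ℤ (𝓞 K) W) := by
    refine trace_odd hK W X fun P hP h2P => ?_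
    rw [← Ideal.Quotient.eq_zero_iff_mem, hW]
    have e2 : (2 : 𝓞 K ⧸ P) = 0 := by
      have := Ideal.Quotient.eq_zero_iff_mem.mpr h2P
      rwa [map_ofNat] at this
    have e4 := pow_four_sub_mem P hP h2P (h2 P hP h2P) (Ideal.Quotient.mk P X)
    have eE := congrArg (Ideal.Quotient.mk P) hE
    simp only [map_sub, map_mul, map_add, map_pow, map_one, map_ofNat, map_intCast,
      map_zero] at eE ⊢
    have ed : ((d : ℤ) : 𝓞 K ⧸ P) = 1 := by
      rw [hk]
      push_cast
      rw [e2, zero_mul, zero_add]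
    rw [ed, e2, e4] at eE
    rw [e2]
    generalize Ideal.Quotient.mk P X = a at *
    generalize Ideal.Quotient.mk P Y = b at *
    have e1 : a * (1 + b) = 1 := by linear_combination eE - e2
    have e3 : a ^ 3 = 1 := by linear_combination (1 + b) * e4 + (1 - a ^ 3) * e1
    linear_combination a ^ 2 * e1 - (1 + b) * e3 - e2
  obtain ⟨c, hc⟩ := norm_one_sub_two W
  rw [Ideal.absNorm_span_singleton] at hmod
  obtain ⟨s, hs⟩ := htr
  omega

end Pool.Agent.Results.MP_c028a6_nt.OddDegree
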